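import Pool.Agent.Helper877_Fin.Fin3

/-!
# The number of branching points of a Steiner tree in a smaller concentric ball is bounded

In the plane `N_2(t) ≤ 2 π / (1 - t) - 2`, in particular `N_2(1/2) ≤ 10`; for every dimension
`d ≥ 3` there is a constant `C` with `N_d(t) ≤ C (1 - t)^(-(d-1))` for all `0 < t < 1`. In
particular `N_d(t)` is finite for all `d` and `t`.
-/

set_option autoImplicit false

open scoped MeasureTheory ENNReal
open MeasureTheory Set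

namespace Pool.Agent.Results.MP_665203_co.FiniteCount

/-- `S` is a Steiner tree (of finite length) for the set `A` of terminals: a closed connected set
such that `S ∪ A` is connected, of minimal `ℋ¹` measure among all closed sets `T` such that
`T ∪ A` is connected. -/
def IsSteinerTree {d : ℕ} (A S : Set (EuclideanSpace ℝ (Fin d))) : Prop :=
  IsClosed S ∧ IsConnected S ∧ IsConnected (S ∪ A) ∧ μH[1] S < ⊤ ∧
    ∀ T : Set (EuclideanSpace ℝ (Fin d)), IsClosed T → IsConnected (T ∪ A) → μH[1] S ≤ μH[1] T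

/-- `p` is a branching point of `S`: a point of `S` outside `A` such that in some ball around `p`
the set `S` is the union of at least three segments (radii) from `p` in different unit
directions `u`. -/
def IsBranching {d : ℕ} (A S : Set (EuclideanSpace ℝ (Fin d))) (p : EuclideanSpace ℝ (Fin d)) :
    Prop :=
  p ∈ S \ A ∧ ∃ ρ : ℝ, 0 < ρ ∧ ∃ F : Finset (EuclideanSpace ℝ (Fin d)), 3 ≤ F.card ∧
    (∀ u ∈ F, ‖u‖ = 1) ∧
    S ∩ Metric.ball p ρ = {x | ∃ u ∈ F, ∃ t : ℝ, 0 ≤ t ∧ x = p + t • u} ∩ Metric.ball p ρ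

/-- `N_d(t)`: the supremum of the number of branching points of `S` in the open ball
`B_{tr}(x)`, over all compact sets `A`, all Steiner trees `S` for `A` and all balls `B_r(x)` without
points of `A`. -/
noncomputable def N (d : ℕ) (t : ℝ) : ℕ∞ :=
  sSup {n | ∃ (A S : Set (EuclideanSpace ℝ (Fin d))) (x : EuclideanSpace ℝ (Fin d)) (r : ℝ),
    IsCompact A ∧ IsSteinerTree A S ∧ 0 < r ∧ A ∩ Metric.ball x r = ∅ ∧
      n = Set.encard {p | p ∈ Metric.ball x (t * r) ∧ IsBranching A S p}}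

/-- In the plane `N_2(t) ≤ M - 2` for every natural number `M` with `2 π < (M + 1) (1 - t)`, in
particular `N_2(1/2) ≤ 10`. In every dimension `d ≥ 3` there is a constant `C` such that
`N_d(t) ≤ C (1 - t)^(-(d-1))` for all `t ∈ (0, 1)`. -/
theorem result :
    (∀ (t : ℝ) (M : ℕ), 0 < t → t < 1 → 2 * Real.pi < (M + 1) * (1 - t) →
      N 2 t ≤ ((M - 2 : ℕ) : ℕ∞)) ∧
    N 2 (1 / 2) ≤ 10 ∧
    ∀ d : ℕ, 3 ≤ d → ∃ C : ℝ, 0 < C ∧ ∀ t : ℝ, 0 < t → t < 1 →
      ∃ n : ℕ, N d t ≤ n ∧ (n : ℝ) ≤ C / (1 - t) ^ (d - 1) := by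
  have hplane : ∀ (t : ℝ) (M : ℕ), 0 < t → t < 1 → 2 * Real.pi < (M + 1) * (1 - t) →
      N 2 t ≤ ((M - 2 : ℕ) : ℕ∞) := by
    intro t M ht0 ht1 hM
    refine sSup_le ?_
    rintro _ ⟨A, S, x, r, hA, ⟨hSc, hSconn, hSA, hSfin, hmin⟩, hr, hAr, rfl⟩
    exact Pool.Agent.Helper877_Fin.br_plane hA.isClosed hSc hSconn hSA.isPreconnected hSfin.ne hr
      (fun T h1 h2 _ => hmin T h1 h2) hAr ht1 hM
  refine ⟨hplane, ?_, ?_⟩
  · have h := hplane (1 / 2) 12 (by norm_num) (by norm_num) (by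
      push_cast
      linarith [Real.pi_lt_d2])
    exact_mod_cast h
  intro d hd
  have hCd := Pool.Agent.Helper877_Fin.Cd_pos (d := d)
  have hd1 : (1:ℝ) ≤ Real.sqrt d := by
    rw [Real.one_le_sqrt]
    have : 1 ≤ d := by omega
    exact_mod_cast this
  refine ⟨4 * Pool.Agent.Helper877_Fin.Cd d * (2 * (Real.sqrt d * 2 ^ (d + 1))) ^ (d - 2),
    by positivity, ?_⟩
  intro t ht0 ht1
  have h1t : 0 < 1 - t := by linarith
  have h2d : (1:ℝ) ≤ 2 ^ (d + 1) := one_le_pow₀ (by norm_num)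
  obtain ⟨J, hJ1, hJ2⟩ := Pool.Agent.Helper877_Fin.exists_level
    (x := Real.sqrt d * 2 ^ (d + 1) / (1 - t)) (by
      rw [le_div_iff₀ h1t]
      nlinarith)
  set M : ℕ := ⌊4 * (Pool.Agent.Helper877_Fin.Cd d * (2 ^ (d - 2) : ℝ) ^ J) / (1 - t)⌋₊ with hM
  have hM1 : 4 * (Pool.Agent.Helper877_Fin.Cd d * (2 ^ (d - 2) : ℝ) ^ J) < (M + 1) * (1 - t) := by
    have := Nat.lt_floor_add_one
      (4 * (Pool.Agent.Helper877_Fin.Cd d * (2 ^ (d - 2) : ℝ) ^ J) / (1 - t))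
    rwa [div_lt_iff₀ h1t] at this
  have hM2 : (M : ℝ) ≤ 4 * (Pool.Agent.Helper877_Fin.Cd d * (2 ^ (d - 2) : ℝ) ^ J) / (1 - t) :=
    Nat.floor_le (by positivity)
  refine ⟨M - 2, ?_, ?_⟩
  · refine sSup_le ?_
    rintro _ ⟨A, S, x, r, hA, ⟨hSc, hSconn, hSA, hSfin, hmin⟩, hr, hAr, rfl⟩
    exact Pool.Agent.Helper877_Fin.br_bound3 hd hA.isClosed hSc hSconn hSA.isPreconnected
      hSfin.ne hr (fun T h1 h2 _ => hmin T h1 h2) hAr ht0 ht1 (by rwa [div_le_iff₀ h1t] at hJ1) hM1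
  · have h1 : ((M - 2 : ℕ) : ℝ) ≤ M := by
      have : M - 2 ≤ M := Nat.sub_le _ _
      exact_mod_cast this
    refine h1.trans (hM2.trans ?_)
    have h3 : ((2:ℝ) ^ (d - 2)) ^ J ≤
        (2 * (Real.sqrt d * 2 ^ (d + 1))) ^ (d - 2) / (1 - t) ^ (d - 2) := by
      rw [← pow_mul, mul_comm (d - 2) J, pow_mul, ← div_pow]
      refine pow_le_pow_left₀ (by positivity) ?_ _
      rw [mul_div_assoc]
      exact hJ2
    have h4 : (1 - t) ^ (d - 1) = (1 - t) ^ (d - 2) * (1 - t) := by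
      rw [← pow_succ]; congr 1; omega
    rw [h4, ← div_div]
    apply div_le_div_of_nonneg_right _ h1t.le
    calc 4 * (Pool.Agent.Helper877_Fin.Cd d * ((2:ℝ) ^ (d - 2)) ^ J)
        = 4 * Pool.Agent.Helper877_Fin.Cd d * ((2:ℝ) ^ (d - 2)) ^ J := by ring
      _ ≤ 4 * Pool.Agent.Helper877_Fin.Cd d *
          ((2 * (Real.sqrt d * 2 ^ (d + 1))) ^ (d - 2) / (1 - t) ^ (d - 2)) :=
          mul_le_mul_of_nonneg_left h3 (by positivity)
      _ = _ := by ring

end Pool.Agent.Results.MP_665203_co.FiniteCount
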